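import Pool.Agent.Helper43.Fr.Goals

/-!
# MP_c866d3_nt packet EXA
-/

namespace Pool.Agent.Helper43.Fr.PkEXA

open scoped PowerSeries Polynomial
open Pool.Agent.Helper43.Fr

variable {p : ℕ} [Fact p.Prime]

/-- `th f = X * f'` -/
theorem th_def {R : Type*} [CommRing R] (f : R⟦X⟧) :
    th f = (PowerSeries.X : R⟦X⟧) * PowerSeries.derivative R f := rfl

theorem coeff_th {R : Type*} [CommRing R] (f : R⟦X⟧) (n : ℕ) :
    PowerSeries.coeff n (th f) = (n : R) * PowerSeries.coeff n f := by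
  rw [th_def]
  cases n with
  | zero => simp
  | succ n =>
      rw [mul_comm, PowerSeries.coeff_succ_mul_X, PowerSeries.coeff_derivative]
      push_cast
      ring

theorem const_th {R : Type*} [CommRing R] (f : R⟦X⟧) :
    PowerSeries.constantCoeff (th f) = 0 := by
  rw [th_def]; simp

theorem th_mul {R : Type*} [CommRing R] (f g : R⟦X⟧) : th (f * g) = f * th g + g * th f := by
  rw [Derivation.leibniz]; simp [smul_eq_mul]

theorem zero_of {g d : ℤ_[p]⟦X⟧} (hg : PowerSeries.constantCoeff g = 0)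
    (hd : PowerSeries.constantCoeff d = 0) (h : 2 * th d = g * d) : d = 0 := by
  ext n
  induction n using Nat.strong_induction_on with
  | _ n ih =>
    rcases Nat.eq_zero_or_pos n with rfl | hn
    · simpa using hd
    · have h1 := congrArg (PowerSeries.coeff n) h
      have h2 : (2 : ℤ_[p]⟦X⟧) = PowerSeries.C (2 : ℤ_[p]) := (map_ofNat PowerSeries.C 2).symm
      rw [h2, PowerSeries.coeff_C_mul, coeff_th, PowerSeries.coeff_mul] at h1
      have h3 : ∑ x ∈ Finset.HasAntidiagonal.antidiagonal n, PowerSeries.coeff x.1 g * PowerSeries.coeff x.2 d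
          = 0 := by
        apply Finset.sum_eq_zero
        rintro ⟨i, j⟩ hij
        rw [Finset.HasAntidiagonal.mem_antidiagonal] at hij
        rcases Nat.eq_zero_or_pos i with rfl | hi
        · simp [hg]
        · have := ih j (by simp at hij; omega)
          simp [this]
      rw [h3] at h1
      have h4 : (2 : ℤ_[p]) ≠ 0 := two_ne_zero
      have h5 : (n : ℤ_[p]) ≠ 0 := by exact_mod_cast hn.ne'
      simpa [h4, h5] using h1

section sub

variable {z r : ℤ_[p]⟦X⟧} (hz : PowerSeries.constantCoeff z = 0)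

include hz

theorem hs : PowerSeries.HasSubst z := PowerSeries.HasSubst.of_constantCoeff_zero' hz

theorem sb_mul (f g : ℤ_[p]⟦X⟧) : sb z (f * g) = sb z f * sb z g :=
  PowerSeries.subst_mul (hs hz) f g

theorem sb_add (f g : ℤ_[p]⟦X⟧) : sb z (f + g) = sb z f + sb z g :=
  PowerSeries.subst_add (hs hz) f g

theorem sb_X : sb z PowerSeries.X = z := PowerSeries.subst_X (hs hz)

theorem sb_alg (f : ℤ_[p]⟦X⟧) : sb z f = PowerSeries.substAlgHom (hs hz) f := by
  rw [PowerSeries.coe_substAlgHom]; rfl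

theorem th_sb (hr : th z = r * z) (f : ℤ_[p]⟦X⟧) : th (sb z f) = sb z (th f) * r := by
  rw [th_def f, sb_mul hz, sb_X hz, th_def]
  rw [show sb z f = PowerSeries.subst z f from rfl, PowerSeries.derivative_subst (hs hz)]
  have h := hr
  rw [th_def] at h
  calc PowerSeries.X * (PowerSeries.subst z (PowerSeries.derivative ℤ_[p] f) *
        PowerSeries.derivative ℤ_[p] z)
      = PowerSeries.subst z (PowerSeries.derivative ℤ_[p] f) *
        (PowerSeries.X * PowerSeries.derivative ℤ_[p] z) := by ring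
    _ = PowerSeries.subst z (PowerSeries.derivative ℤ_[p] f) * (r * z) := by rw [h]
    _ = z * sb z (PowerSeries.derivative ℤ_[p] f) * r := by
        rw [show sb z (PowerSeries.derivative ℤ_[p] f)
          = PowerSeries.subst z (PowerSeries.derivative ℤ_[p] f) from rfl]
        ring

theorem const_sb (f : ℤ_[p]⟦X⟧) :
    PowerSeries.constantCoeff (sb z f) = PowerSeries.constantCoeff f := by
  obtain ⟨g, hg⟩ : ∃ g : ℤ_[p]⟦X⟧, f = PowerSeries.C (PowerSeries.constantCoeff f)
      + PowerSeries.X * g := by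
    have : PowerSeries.X ∣ f - PowerSeries.C (PowerSeries.constantCoeff f) := by
      rw [PowerSeries.X_dvd_iff]; simp
    obtain ⟨g, hg⟩ := this
    exact ⟨g, by rw [← hg]; ring⟩
  conv_lhs => rw [hg]
  rw [sb_add hz, sb_mul hz, sb_X hz, sb_alg hz (PowerSeries.C _)]
  have : (PowerSeries.C (PowerSeries.constantCoeff f) : ℤ_[p]⟦X⟧)
      = algebraMap ℤ_[p] ℤ_[p]⟦X⟧ (PowerSeries.constantCoeff f) := rfl
  rw [this, AlgHom.commutes]
  simp [hz]

theorem sb_num (n : ℕ) : sb z (n : ℤ_[p]⟦X⟧) = n := by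
  rw [sb_alg hz]; simp

theorem const_DD : PowerSeries.constantCoeff (DD z) = 1 := by
  simp [DD, hz]

/-- the ODE at `z` -/
theorem ode_at (hode : G_ODE) :
    DD z * (2 * sb z (FF ℤ_[p]) * sb z (th (th (FF ℤ_[p]))) - (sb z (th (FF ℤ_[p]))) ^ 2)
      + (-28 * z - 256 * z ^ 2) * sb z (FF ℤ_[p]) * sb z (th (FF ℤ_[p]))
      - 4 * (2 * z + 24 * z ^ 2) * (sb z (FF ℤ_[p])) ^ 2 = 0 := by
  have h := hode ℤ_[p]
  have hX : th (PowerSeries.X : ℤ_[p]⟦X⟧) = PowerSeries.X := by
    rw [th_def, PowerSeries.derivative_X, mul_one]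
  have hD : th (DD (PowerSeries.X : ℤ_[p]⟦X⟧))
      = -28 * PowerSeries.X - 256 * PowerSeries.X ^ 2 := by
    have h28 : th (28 : ℤ_[p]⟦X⟧) = 0 := by
      exact_mod_cast Derivation.map_natCast (th (R := ℤ_[p])) 28
    have h128 : th (128 : ℤ_[p]⟦X⟧) = 0 := by
      exact_mod_cast Derivation.map_natCast (th (R := ℤ_[p])) 128
    have h1 : th (1 : ℤ_[p]⟦X⟧) = 0 := by
      exact_mod_cast Derivation.map_natCast (th (R := ℤ_[p])) 1
    rw [DD, map_sub, map_sub, sq, th_mul, th_mul, th_mul, h28, h128, h1, hX]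
    ring
  rw [hD] at h
  have h2 := congrArg (PowerSeries.substAlgHom (hs hz)) h
  simp only [DD, map_add, map_sub, map_mul, map_pow, map_zero, map_neg, map_one, map_ofNat,
    PowerSeries.substAlgHom_X] at h2
  simp only [sb_alg hz, DD]
  exact h2

omit hz in
theorem th_DD (hr : th z = r * z) : th (DD z) = (-28 * z - 256 * z ^ 2) * r := by
  have h28 : th (28 : ℤ_[p]⟦X⟧) = 0 := by
    exact_mod_cast Derivation.map_natCast (th (R := ℤ_[p])) 28
  have h128 : th (128 : ℤ_[p]⟦X⟧) = 0 := by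
    exact_mod_cast Derivation.map_natCast (th (R := ℤ_[p])) 128
  have h1 : th (1 : ℤ_[p]⟦X⟧) = 0 := by
    exact_mod_cast Derivation.map_natCast (th (R := ℤ_[p])) 1
  rw [DD, map_sub, map_sub, sq, th_mul, th_mul, th_mul, h28, h128, h1, hr]
  ring

/-- the Riccati equation -/
theorem riccati (hode : G_ODE) (hr : th z = r * z) {ψ m lz lps : ℤ_[p]⟦X⟧}
    (hr2 : r ^ 2 = ψ * m * DD z) (hr0 : r ≠ 0) (hm : th m = lz * m) (hψ : th ψ = lps * ψ) :
    ∃ E : ℤ_[p]⟦X⟧, sb z (FF ℤ_[p]) * E = sb z (th (FF ℤ_[p])) * r ∧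
      PowerSeries.constantCoeff E = 0 ∧
      2 * th E + E ^ 2 - (lps + lz) * E = 8 * ψ * m * z * (1 + 12 * z) := by
  have hFc : PowerSeries.constantCoeff (FF ℤ_[p]) = 1 := by
    rw [← PowerSeries.coeff_zero_eq_constantCoeff_apply, FF, PowerSeries.coeff_mk]
    simp [aa, franel]
  have hUc : PowerSeries.constantCoeff (sb z (FF ℤ_[p])) = 1 := by
    rw [const_sb hz, hFc]
  have hU1c : PowerSeries.constantCoeff (sb z (th (FF ℤ_[p]))) = 0 := by
    rw [const_sb hz, const_th]
  have hUu : IsUnit (sb z (FF ℤ_[p])) := by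
    rw [PowerSeries.isUnit_iff_constantCoeff, hUc]; exact isUnit_one
  have hode' := ode_at hz hode
  have hU' := th_sb hz hr (FF ℤ_[p])
  have hU1' := th_sb hz hr (th (FF ℤ_[p]))
  set U := sb z (FF ℤ_[p]) with hU
  set U1 := sb z (th (FF ℤ_[p])) with hU1
  set U2 := sb z (th (th (FF ℤ_[p]))) with hU2
  have hUne : U ≠ 0 := hUu.ne_zero
  obtain ⟨v, hv⟩ := hUu.exists_right_inv
  refine ⟨v * (U1 * r), ?_, ?_, ?_⟩
  · rw [← mul_assoc, hv, one_mul]
  · simp [hU1c]
  · obtain ⟨E, hE⟩ : ∃ E, E = v * (U1 * r) := ⟨_, rfl⟩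
    rw [← hE]
    have hUE : U * E = U1 * r := by rw [hE, ← mul_assoc, hv, one_mul]
    -- derivative of r^2
    have e1 : 2 * th r = (lps + lz) * r + ψ * m * (-28 * z - 256 * z ^ 2) := by
      have := congrArg th hr2
      rw [sq, th_mul, th_mul, th_mul, hm, hψ, th_DD hr] at this
      have h2 : r * (2 * th r) = r * ((lps + lz) * r + ψ * m * (-28 * z - 256 * z ^ 2)) := by
        linear_combination this - (lps + lz) * hr2
      exact mul_left_cancel₀ hr0 h2
    have e2 : U1 * r * E + U * th E = U2 * r ^ 2 + U1 * th r := by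
      have := congrArg th hUE
      rw [th_mul, th_mul, hU', hU1'] at this
      linear_combination this
    have e3 : U ^ 2 * (2 * th E + E ^ 2 - (lps + lz) * E)
        = U ^ 2 * (8 * ψ * m * z * (1 + 12 * z)) := by
      linear_combination (2 * U) * e2 + U * U1 * e1 + (U * E - U1 * r - (lps + lz) * U) * hUE
        + (2 * U * U2 - U1 ^ 2) * hr2 + ψ * m * hode'
    exact mul_left_cancel₀ (pow_ne_zero 2 hUne) e3

end sub

theorem exa : G_ODE → G_EXA := by
  intro hode p _ hp C
  have hψ0 := C.hψ0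
  have hψne : PowerSeries.constantCoeff C.ψ ≠ 0 := hψ0.ne_zero
  have hM'0 : PowerSeries.constantCoeff C.M' = (C.N : ℤ_[p]) ^ 2 := by
    have := congrArg PowerSeries.constantCoeff C.hMM
    simpa [C.hM0] using this
  have hNne : (C.N : ℤ_[p]) ≠ 0 := by
    have : C.N ≠ 0 := by
      rintro h
      apply C.hN
      rw [h]; exact dvd_zero p
    exact_mod_cast this
  have hrx0 : C.rx ≠ 0 := by
    intro h
    have h1 := congrArg PowerSeries.constantCoeff C.hrx2
    rw [h, map_mul, map_mul, const_DD C.hxc, C.hM0] at h1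
    simp at h1
    exact hψne h1.symm
  have hry0 : C.ry ≠ 0 := by
    intro h
    have h1 := congrArg PowerSeries.constantCoeff C.hry2
    rw [h, map_mul, map_mul, const_DD C.hyc, hM'0] at h1
    simp at h1
    rcases h1 with h1 | h1
    · exact hψne h1
    · exact hNne (by exact_mod_cast h1)
  have hMne : C.M ≠ 0 := by
    intro h
    have := C.hM0
    rw [h] at this
    simp at this
  have hM'' : th C.M' = (-C.lam) * C.M' := by
    have h1 := congrArg th C.hMM
    have h2 : th ((C.N : ℤ_[p]⟦X⟧) ^ 2) = 0 := by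
      rw [sq, th_mul, Derivation.map_natCast]; simp
    rw [th_mul, C.hlam, h2] at h1
    have h3 : C.M * th C.M' = C.M * ((-C.lam) * C.M') := by
      linear_combination h1
    exact mul_left_cancel₀ hMne h3
  have hlam0 : PowerSeries.constantCoeff C.lam = 0 := by
    have h1 := congrArg PowerSeries.constantCoeff C.hlam
    rw [const_th, map_mul, C.hM0, mul_one] at h1
    exact h1.symm
  have hl0 : PowerSeries.constantCoeff C.lps = 0 := by
    have h1 := congrArg PowerSeries.constantCoeff C.hlps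
    rw [const_th, map_mul] at h1
    rcases mul_eq_zero.mp h1.symm with h | h
    · exact h
    · exact absurd h hψne
  obtain ⟨Ex, hEx, hEx0, hEx2⟩ := riccati C.hxc hode C.hrx C.hrx2 hrx0 C.hlam C.hlps
  obtain ⟨Ey, hEy, hEy0, hEy2⟩ := riccati C.hyc hode C.hry C.hry2 hry0 hM'' C.hlps
  have hΔ : Ex - Ey - C.lam = 0 := by
    apply zero_of (g := C.lps - Ex - Ey)
    · simp [hEx0, hEy0, hl0]
    · simp [hEx0, hEy0, hlam0]
    · rw [map_sub, map_sub]
      linear_combination hEx2 - hEy2 - C.hS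
  refine ⟨Ex, Ey, hEx, hEy, by linear_combination hΔ, ?_⟩
  have hFc : PowerSeries.constantCoeff (FF ℤ_[p]) = 1 := by
    rw [← PowerSeries.coeff_zero_eq_constantCoeff_apply, FF, PowerSeries.coeff_mk]
    simp [aa, franel]
  have hd : sb C.x (FF ℤ_[p]) - C.M * sb C.y (FF ℤ_[p]) = 0 := by
    apply zero_of (g := 2 * Ex)
    · simp [hEx0]
    · rw [map_sub, map_mul, const_sb C.hxc, const_sb C.hyc, hFc, C.hM0]; simp
    · rw [map_sub, th_mul, th_sb C.hxc C.hrx, th_sb C.hyc C.hry, C.hlam]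
      linear_combination (-2) * hEx + 2 * C.M * hEy
        + 2 * C.M * sb C.y (FF ℤ_[p]) * hΔ
  linear_combination hd

end Pool.Agent.Helper43.Fr.PkEXA
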